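import Pool.Agent.L7h35.RQ5.Stm

/-!
# Distinct quotients: the exponent is one half

From a set `X` of vectors one gets the set of the vectors `(2 B k + x, - 2 B k + y)`, `x, y ∈ X`,
`0 ≤ k < W`, with `B` large.
-/

set_option autoImplicit false

open Finset

namespace Pool.Agent.L7h15.RQ6

open Pool.Agent.L7h35.RQ5

open Classical in
/-- the differences -/
noncomputable def D {ι : Type} (X : Finset (ι → ℤ)) : Finset (ι → ℤ) :=
  (X ×ˢ X).image (fun p => fun i => p.2 i - p.1 i)

theorem mem_T {ι : Type} (X : Finset (ι → ℤ)) (z : ι → ℕ) :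
    z ∈ T X ↔ ∃ x ∈ X, ∃ y ∈ X, ∀ i, z i = (y i - x i).toNat := by
  unfold T
  constructor
  · intro h
    obtain ⟨⟨x, y⟩, hxy, rfl⟩ :=
      (@Finset.mem_image _ _ (fun a b => Classical.propDecidable (a = b)) _ _ _).1 h
    rw [mem_product] at hxy
    exact ⟨x, hxy.1, y, hxy.2, fun _ => rfl⟩
  · rintro ⟨x, hx, y, hy, h⟩
    refine (@Finset.mem_image _ _ (fun a b => Classical.propDecidable (a = b)) _ _ _).2
      ⟨(x, y), mem_product.2 ⟨hx, hy⟩, ?_⟩
    funext i
    exact (h i).symm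

theorem mem_D {ι : Type} (X : Finset (ι → ℤ)) (z : ι → ℤ) :
    z ∈ D X ↔ ∃ x ∈ X, ∃ y ∈ X, ∀ i, z i = y i - x i := by
  unfold D
  constructor
  · intro h
    obtain ⟨⟨x, y⟩, hxy, rfl⟩ :=
      (@Finset.mem_image _ _ (fun a b => Classical.propDecidable (a = b)) _ _ _).1 h
    rw [mem_product] at hxy
    exact ⟨x, hxy.1, y, hxy.2, fun _ => rfl⟩
  · rintro ⟨x, hx, y, hy, h⟩
    refine (@Finset.mem_image _ _ (fun a b => Classical.propDecidable (a = b)) _ _ _).2
      ⟨(x, y), mem_product.2 ⟨hx, hy⟩, ?_⟩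
    funext i
    exact (h i).symm

/-- the vector `(2 B k + x, - 2 B k + y)` -/
def emb {ι : Type} (B : ℤ) (k : ℤ) (x y : ι → ℤ) : ι ⊕ ι → ℤ :=
  Sum.elim (fun i => 2 * B * k + x i) (fun i => - (2 * B * k) + y i)

theorem exists_bound {ι : Type} [Fintype ι] (X : Finset (ι → ℤ)) :
    ∃ B : ℤ, 0 < B ∧ ∀ x ∈ X, ∀ i, |x i| < B := by
  classical
  refine ⟨1 + ∑ x ∈ X, ∑ i, |x i|, ?_, fun x hx i => ?_⟩
  · have : 0 ≤ ∑ x ∈ X, ∑ i, |x i| := Finset.sum_nonneg fun x _ =>
      Finset.sum_nonneg fun i _ => abs_nonneg _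
    omega
  · have h1 : |x i| ≤ ∑ i, |x i| :=
      Finset.single_le_sum (f := fun i => |x i|) (fun i _ => abs_nonneg _) (mem_univ i)
    have h2 : ∑ i, |x i| ≤ ∑ x ∈ X, ∑ i, |x i| :=
      Finset.single_le_sum (f := fun x : ι → ℤ => ∑ i, |x i|)
        (fun x _ => Finset.sum_nonneg fun i _ => abs_nonneg _) hx
    omega

theorem step {ι : Type} [Fintype ι] [Nonempty ι] (X : Finset (ι → ℤ)) (W : ℕ) :
    ∃ X' : Finset (ι ⊕ ι → ℤ), X'.card = W * (X.card * X.card) ∧
      (T X').card ≤ (T X).card * (T X).card + (W * (D X).card + W * (D X).card) ∧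
      (D X').card ≤ (2 * W) * ((D X).card * (D X).card) := by
  classical
  obtain ⟨B, hB, hX⟩ := exists_bound X
  have hdiff : ∀ x ∈ X, ∀ y ∈ X, ∀ i, |y i - x i| < 2 * B := by
    intro x hx y hy i
    have h1 := hX x hx i
    have h2 := hX y hy i
    rw [abs_lt] at h1 h2 ⊢
    constructor <;> linarith [h1.1, h1.2, h2.1, h2.2]
  obtain ⟨X', hX'⟩ : ∃ X' : Finset (ι ⊕ ι → ℤ), X' = (range W ×ˢ (X ×ˢ X)).image
      (fun p => emb B (p.1 : ℤ) p.2.1 p.2.2) := ⟨_, rfl⟩
  have hmem : ∀ u, u ∈ X' ↔ ∃ k < W, ∃ x ∈ X, ∃ y ∈ X, emb B (k : ℤ) x y = u := by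
    intro u
    rw [hX', mem_image]
    constructor
    · rintro ⟨⟨k, x, y⟩, h, rfl⟩
      rw [mem_product, mem_product, mem_range] at h
      exact ⟨k, h.1, x, h.2.1, y, h.2.2, rfl⟩
    · rintro ⟨k, hk, x, hx, y, hy, rfl⟩
      exact ⟨(k, x, y), mem_product.2 ⟨mem_range.2 hk, mem_product.2 ⟨hx, hy⟩⟩, rfl⟩
  refine ⟨X', ?_, ?_, ?_⟩
  · rw [hX', card_image_of_injOn, card_product, card_product, card_range]
    rintro ⟨k, x, y⟩ h ⟨k', x', y'⟩ h' he
    rw [mem_coe, mem_product, mem_product] at h h'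
    dsimp only at h h' he
    have e1 : ∀ i, 2 * B * (k : ℤ) + x i = 2 * B * (k' : ℤ) + x' i := fun i =>
      congrFun he (Sum.inl i)
    have e2 : ∀ i, - (2 * B * (k : ℤ)) + y i = - (2 * B * (k' : ℤ)) + y' i := fun i =>
      congrFun he (Sum.inr i)
    have hk : (k : ℤ) = k' := by
      obtain ⟨i⟩ := ‹Nonempty ι›
      have h1 := hdiff x h.2.1 x' h'.2.1 i
      have h2 : 2 * B * ((k : ℤ) - k') = x' i - x i := by linarith [e1 i]
      rw [← h2, abs_mul, abs_of_pos (by linarith : 0 < 2 * B)] at h1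
      have h3 : |(k : ℤ) - k'| < 1 := by
        by_contra h4
        push Not at h4
        nlinarith
      have h4 := Int.abs_lt_one_iff.1 h3
      linarith
    rw [hk] at e1 e2
    have ex : x = x' := funext fun i => by linarith [e1 i]
    have ey : y = y' := funext fun i => by linarith [e2 i]
    have ek : k = k' := by exact_mod_cast hk
    rw [ex, ey, ek]
  · have hsub : T X' ⊆ (T X ×ˢ T X).image (fun p => Sum.elim p.1 p.2) ∪
        ((range W ×ˢ D X).image (fun p => Sum.elim (fun i => (2 * B * (p.1 : ℤ) + p.2 i).toNat)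
          (fun _ => 0)) ∪
        (range W ×ˢ D X).image (fun p => Sum.elim (fun _ => 0)
          (fun i => (2 * B * (p.1 : ℤ) + p.2 i).toNat))) := by
      intro z hz
      obtain ⟨u, hu, v, hv, huv⟩ := (mem_T X' z).1 hz
      obtain ⟨k, hk, x, hx, y, hy, rfl⟩ := (hmem u).1 hu
      obtain ⟨k', hk', x', hx', y', hy', rfl⟩ := (hmem v).1 hv
      have z1 : ∀ i, z (Sum.inl i) = ((2 * B * (k' : ℤ) + x' i) - (2 * B * (k : ℤ) + x i)).toNat :=
        fun i => huv (Sum.inl i)
      have z2 : ∀ i, z (Sum.inr i) =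
          ((- (2 * B * (k' : ℤ)) + y' i) - (- (2 * B * (k : ℤ)) + y i)).toNat :=
        fun i => huv (Sum.inr i)
      rcases lt_trichotomy k k' with h | h | h
      · refine mem_union_right _ (mem_union_left _ (mem_image.2
          ⟨(k' - k, fun i => x' i - x i), mem_product.2 ⟨mem_range.2 (by dsimp only; omega),
            (mem_D X _).2 ⟨x, hx, x', hx', fun _ => rfl⟩⟩, ?_⟩))
        funext s
        rcases s with i | i
        · rw [z1]
          show (2 * B * ((k' - k : ℕ) : ℤ) + (x' i - x i)).toNat = _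
          rw [Nat.cast_sub h.le]
          congr 1
          ring
        · rw [z2]
          show 0 = _
          symm
          rw [Int.toNat_eq_zero]
          have h1 := hdiff y hy y' hy' i
          rw [abs_lt] at h1
          have h2 : (k : ℤ) + 1 ≤ k' := by exact_mod_cast h
          nlinarith [h1.1, h1.2]
      · subst h
        refine mem_union_left _ (mem_image.2 ⟨(fun i => (x' i - x i).toNat,
          fun i => (y' i - y i).toNat), mem_product.2 ⟨(mem_T X _).2 ⟨x, hx, x', hx', fun _ => rfl⟩,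
            (mem_T X _).2 ⟨y, hy, y', hy', fun _ => rfl⟩⟩, ?_⟩)
        funext s
        rcases s with i | i
        · rw [z1]
          show (x' i - x i).toNat = _
          congr 1
          ring
        · rw [z2]
          show (y' i - y i).toNat = _
          congr 1
          ring
      · refine mem_union_right _ (mem_union_right _ (mem_image.2
          ⟨(k - k', fun i => y' i - y i), mem_product.2 ⟨mem_range.2 (by dsimp only; omega),
            (mem_D X _).2 ⟨y, hy, y', hy', fun _ => rfl⟩⟩, ?_⟩))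
        funext s
        rcases s with i | i
        · rw [z1]
          show 0 = _
          symm
          rw [Int.toNat_eq_zero]
          have h1 := hdiff x hx x' hx' i
          rw [abs_lt] at h1
          have h2 : (k' : ℤ) + 1 ≤ k := by exact_mod_cast h
          nlinarith [h1.1, h1.2]
        · rw [z2]
          show (2 * B * ((k - k' : ℕ) : ℤ) + (y' i - y i)).toNat = _
          rw [Nat.cast_sub h.le]
          congr 1
          ring
    refine (card_le_card hsub).trans ((card_union_le _ _).trans (Nat.add_le_add ?_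
      ((card_union_le _ _).trans (Nat.add_le_add ?_ ?_))))
    · refine card_image_le.trans ?_
      rw [card_product]
    · refine card_image_le.trans ?_
      rw [card_product, card_range]
    · refine card_image_le.trans ?_
      rw [card_product, card_range]
  · have hsub : D X' ⊆ (range (2 * W) ×ˢ (D X ×ˢ D X)).image
        (fun p => emb B ((p.1 : ℤ) - W) p.2.1 p.2.2) := by
      intro z hz
      obtain ⟨u, hu, v, hv, huv⟩ := (mem_D X' z).1 hz
      obtain ⟨k, hk, x, hx, y, hy, rfl⟩ := (hmem u).1 hu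
      obtain ⟨k', hk', x', hx', y', hy', rfl⟩ := (hmem v).1 hv
      refine mem_image.2 ⟨(k' + W - k, fun i => x' i - x i, fun i => y' i - y i),
        mem_product.2 ⟨mem_range.2 (by dsimp only; omega), mem_product.2
          ⟨(mem_D X _).2 ⟨x, hx, x', hx', fun _ => rfl⟩,
            (mem_D X _).2 ⟨y, hy, y', hy', fun _ => rfl⟩⟩⟩, ?_⟩
      have hc : ((k' + W - k : ℕ) : ℤ) - W = k' - k := by omega
      funext s
      rw [huv s]
      rcases s with i | i
      · show 2 * B * (((k' + W - k : ℕ) : ℤ) - W) + (x' i - x i) =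
          (2 * B * (k' : ℤ) + x' i) - (2 * B * (k : ℤ) + x i)
        rw [hc]
        ring
      · show - (2 * B * (((k' + W - k : ℕ) : ℤ) - W)) + (y' i - y i) =
          (- (2 * B * (k' : ℤ)) + y' i) - (- (2 * B * (k : ℤ)) + y i)
        rw [hc]
        ring
    refine (card_le_card hsub).trans (card_image_le.trans ?_)
    rw [card_product, card_product, card_range]

theorem lev_aux : ∀ m : ℕ, ∃ C : ℕ, ∀ W : ℕ, 1 ≤ W → ∃ (ι : Type) (_ : Fintype ι)
    (_ : Nonempty ι) (X : Finset (ι → ℤ)), X.card = W ^ (2 ^ (m + 1) - 1) ∧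
      (T X).card ≤ C * W ^ (2 ^ m) ∧ (D X).card ≤ C * W ^ (2 ^ (m + 1) - 1) := by
  classical
  intro m
  induction m with
  | zero =>
    refine ⟨2, fun W hW => ⟨Unit, inferInstance, inferInstance,
      (range W).image (fun (k : ℕ) (_ : Unit) => (k : ℤ)), ?_, ?_, ?_⟩⟩
    · rw [card_image_of_injective, card_range]
      · norm_num
      · intro a b h
        have h0 : (a : ℤ) = b := congrFun h ()
        exact_mod_cast h0
    · have hsub : T ((range W).image (fun (k : ℕ) (_ : Unit) => (k : ℤ))) ⊆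
          (range W).image (fun (k : ℕ) (_ : Unit) => k) := by
        intro z hz
        obtain ⟨x, hx, y, hy, h⟩ := (mem_T _ z).1 hz
        obtain ⟨a, ha, rfl⟩ := mem_image.1 hx
        obtain ⟨b, hb, rfl⟩ := mem_image.1 hy
        rw [mem_range] at ha hb
        have h0 : z () = ((b : ℤ) - a).toNat := h ()
        refine mem_image.2 ⟨z (), ?_, funext fun u => rfl⟩
        rw [mem_range, h0]
        omega
      refine (card_le_card hsub).trans (card_image_le.trans ?_)
      rw [card_range, pow_zero, pow_one]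
      omega
    · have hsub : D ((range W).image (fun (k : ℕ) (_ : Unit) => (k : ℤ))) ⊆
          (range (2 * W)).image (fun (k : ℕ) (_ : Unit) => (k : ℤ) - W) := by
        intro z hz
        obtain ⟨x, hx, y, hy, h⟩ := (mem_D _ z).1 hz
        obtain ⟨a, ha, rfl⟩ := mem_image.1 hx
        obtain ⟨b, hb, rfl⟩ := mem_image.1 hy
        rw [mem_range] at ha hb
        refine mem_image.2 ⟨b + W - a, ?_, funext fun u => ?_⟩
        · rw [mem_range]
          omega
        · have h0 : z u = (b : ℤ) - a := h u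
          rw [h0]
          show ((b + W - a : ℕ) : ℤ) - W = (b : ℤ) - a
          omega
      refine (card_le_card hsub).trans (card_image_le.trans ?_)
      rw [card_range]
      norm_num
  | succ m ih =>
    obtain ⟨C, hC⟩ := ih
    refine ⟨2 * (C * C) + 2 * C, fun W hW => ?_⟩
    obtain ⟨ι, hf, hne, X, h1, h2, h3⟩ := hC W hW
    obtain ⟨X', g1, g2, g3⟩ := step X W
    have hp : 1 ≤ 2 ^ (m + 1) := Nat.one_le_two_pow
    have e1 : 2 ^ (m + 1 + 1) - 1 = 1 + ((2 ^ (m + 1) - 1) + (2 ^ (m + 1) - 1)) := by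
      rw [pow_succ 2 (m + 1)]
      omega
    have e2 : W ^ (2 ^ (m + 1 + 1) - 1) = W * (W ^ (2 ^ (m + 1) - 1) * W ^ (2 ^ (m + 1) - 1)) := by
      rw [e1, pow_add, pow_add, pow_one]
    have e3 : W ^ (2 ^ (m + 1)) = W ^ (2 ^ m) * W ^ (2 ^ m) := by
      rw [pow_succ 2 m, mul_two, pow_add]
    have e4 : W ^ (2 ^ (m + 1)) = W * W ^ (2 ^ (m + 1) - 1) := by
      rw [← pow_succ']
      congr 1
      omega
    refine ⟨ι ⊕ ι, inferInstance, inferInstance, X', ?_, ?_, ?_⟩
    · rw [g1, h1, e2]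
    · calc (T X').card ≤ (T X).card * (T X).card + (W * (D X).card + W * (D X).card) := g2
        _ ≤ (C * W ^ (2 ^ m)) * (C * W ^ (2 ^ m)) +
            (W * (C * W ^ (2 ^ (m + 1) - 1)) + W * (C * W ^ (2 ^ (m + 1) - 1))) :=
          Nat.add_le_add (Nat.mul_le_mul h2 h2)
            (Nat.add_le_add (Nat.mul_le_mul_left _ h3) (Nat.mul_le_mul_left _ h3))
        _ = C * C * (W ^ (2 ^ m) * W ^ (2 ^ m)) + 2 * C * (W * W ^ (2 ^ (m + 1) - 1)) := by ring
        _ = (C * C + 2 * C) * W ^ (2 ^ (m + 1)) := by rw [← e3, ← e4]; ring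
        _ ≤ (2 * (C * C) + 2 * C) * W ^ (2 ^ (m + 1)) := by
          apply Nat.mul_le_mul_right
          nlinarith
    · calc (D X').card ≤ (2 * W) * ((D X).card * (D X).card) := g3
        _ ≤ (2 * W) * ((C * W ^ (2 ^ (m + 1) - 1)) * (C * W ^ (2 ^ (m + 1) - 1))) :=
          Nat.mul_le_mul_left _ (Nat.mul_le_mul h3 h3)
        _ = 2 * (C * C) * (W * (W ^ (2 ^ (m + 1) - 1) * W ^ (2 ^ (m + 1) - 1))) := by ring
        _ = 2 * (C * C) * W ^ (2 ^ (m + 1 + 1) - 1) := by rw [← e2]
        _ ≤ (2 * (C * C) + 2 * C) * W ^ (2 ^ (m + 1 + 1) - 1) := by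
          apply Nat.mul_le_mul_right
          omega

/-- the sets of vectors with `|X| = W ^ (2 ^ (m + 1) - 1)` and `O (W ^ (2 ^ m))` positive parts -/
theorem lev : ∀ m : ℕ, ∃ C : ℕ, ∀ W : ℕ, 1 ≤ W → ∃ (ι : Type) (_ : Fintype ι)
    (X : Finset (ι → ℤ)), X.card = W ^ (2 ^ (m + 1) - 1) ∧ (T X).card ≤ C * W ^ (2 ^ m) := by
  intro m
  obtain ⟨C, hC⟩ := lev_aux m
  refine ⟨C, fun W hW => ?_⟩
  obtain ⟨ι, hf, _, X, h1, h2, _⟩ := hC W hW
  exact ⟨ι, hf, X, h1, h2⟩

end Pool.Agent.L7h15.RQ6
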