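import Pool.Agent.L7h15.RQ6.Lev
import Pool.Agent.L7h35.RQ6.Half

set_option autoImplicit false

namespace Pool.Agent.L7h15.RQ6

theorem s_LEV : Pool.Agent.L7h35.RQ6.S_LEV := lev

end Pool.Agent.L7h15.RQ6
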